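import Pool.Agent.NUSea.DispT
import Pool.Agent.NUSea.One
import Pool.Agent.NUCR.Bil

/-!
# The energy form of the quanta and the density of a general sea

`V * P = v` and the exact energy of a current.  Copy of the last part of `NUCR/Bil.lean`.
-/

set_option autoImplicit false
set_option linter.unusedSectionVars false

open MeasureTheory Set Filter Topology

namespace NUSea.CR


open NUCR (kap0 kap0_pos V_int V_meas V_nonneg cv bil BI bil_smul_left bil_smul_right bil_add_left
  bil_add_right bil_self_le bil_abs)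

noncomputable section

variable [Sea]

variable {a : ℝ → ℝ}

/-- `V * P = v` -/
lemma cv_P (s : ℝ) : cv P s = v s := by
  rw [← (conv_V s).2]
  unfold NUCR.cv
  exact integral_congr_ae (Eventually.of_forall fun t => mul_comm _ _)

lemma bil_P (a : ℝ → ℝ) : bil a P = ∫ t, a t * v t := by
  unfold NUCR.bil
  simp_rw [cv_P]

lemma P_BI : ∃ C : ℝ, 0 < C ∧ BI C P := by
  obtain ⟨C, hC, h⟩ := P_le
  refine ⟨C, hC, P_int, fun t => ?_⟩
  rw [abs_of_pos (P_pos t)]
  refine (h t).trans ?_
  have h1 : Real.exp (-(8 / 3) * |t|) ≤ 1 := Real.exp_le_one_iff.2 (by have := abs_nonneg t; linarith)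
  calc _ ≤ C * 1 := mul_le_mul_of_nonneg_left h1 hC.le
    _ = _ := mul_one _

/-- **exact energy**: `j' = a - η p` -/
theorem energy_eq {M1 M2 : ℝ} {p : ℝ → ℝ} (ha : BI M1 a) (hp : BI M2 p) (η : ℝ) :
    2 * η * (∫ t, v t * (a t - η * p t)) + bil (fun t => a t - η * p t) (fun t => a t - η * p t) =
      -η ^ 2 * (∫ t, P t * v t) + bil a a + 2 * η * bil a (fun t => P t - p t) +
        η ^ 2 * bil (fun t => P t - p t) (fun t => P t - p t) := by
  obtain ⟨C, hC, hP⟩ := P_BI
  have hp1 := hp.smul (-1)
  have hpη := hp.smul (-η)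
  have e0 : (∫ t, v t * (a t - η * p t)) = bil (fun t => a t - η * p t) P := by
    rw [bil_P]
    exact integral_congr_ae (Eventually.of_forall fun t => mul_comm _ _)
  have f1 : (fun t => a t - η * p t) = fun t => a t + -η * p t := by funext t; ring
  have f2 : (fun t => P t - p t) = fun t => P t + -1 * p t := by funext t; ring
  have e1 : bil P P = ∫ t, P t * v t := bil_P P
  rw [e0, ← e1, f1, f2, bil_add_left ha hpη hP, bil_smul_left, bil_add_right (ha.add hpη) ha hpη, bil_smul_right,
    bil_add_left ha hpη ha, bil_add_left ha hpη hp, bil_smul_left, bil_smul_left, bil_add_right ha hP hp1,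
    bil_smul_right, bil_add_right (hP.add hp1) hP hp1, bil_smul_right, bil_add_left hP hp1 hP, bil_add_left hP hp1 hp,
    bil_smul_left, bil_smul_left, hp.symm ha, hp.symm hP]
  ring

end

end NUSea.CR
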