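import Pool.Agent.NUSea.One
import Pool.Agent.NUSea.Two
import Pool.Agent.NUCR.Bil
import Pool.Agent.NUWC.Tent

/-!
# Derivatives of the row potential `vc` on a strip, for a general sea

`|vc' z|, |vc'' z| ≤ A exp (-2 |Re z|)` for `|Im z| ≤ b < l / 2`.

`vc z = ∫ Pc (z - u) V u du` and `0 ≤ V u ≤ 24 exp (-2|u|)` for `|u| ≥ 1`, so `vc` decays like
`exp (-2 |Re z|)`; the derivatives follow from Cauchy's estimates.  Copy of `NUCR/VcD.lean`.
-/

set_option autoImplicit false
set_option linter.unusedSectionVars false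

open MeasureTheory Set Filter Topology Complex

namespace NUSea.CR


open NUMF (l l_pos V)
open NUAct (ks kx)

noncomputable section

variable [Sea]

/-- the derivative of the field of a pair of rows -/
def vd (z : ℂ) : ℂ := deriv vc z

/-- its derivative -/
def vdd (z : ℂ) : ℂ := deriv (deriv vc) z

lemma diff_vc {z : ℂ} (hz : |z.im| < l / 2) : DifferentiableAt ℂ vc z :=
  (diff_vs hz).add (diff_vx hz)

lemma vc_analyticAt {z : ℂ} (hz : |z.im| < l / 2) : AnalyticAt ℂ vc z := by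
  have hd : DifferentiableOn ℂ vc {z : ℂ | |z.im| < l / 2} := fun w hw =>
    (diff_vc hw).differentiableWithinAt
  exact hd.analyticAt (strip_open.mem_nhds hz)

lemma hasDerivAt_vc {z : ℂ} (hz : |z.im| < l / 2) : HasDerivAt vc (vd z) z :=
  (diff_vc hz).hasDerivAt

lemma hasDerivAt_vd {z : ℂ} (hz : |z.im| < l / 2) : HasDerivAt vd (vdd z) z :=
  (vc_analyticAt hz).deriv.differentiableAt.hasDerivAt

lemma ks_add_kx {u : ℝ} (hu : u ≠ 0) : ks u + kx u = (V u : ℂ) := by
  unfold NUAct.ks NUAct.kx NUMF.V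
  rw [Real.log_mul (NUMF.w_pos hu).ne' (NUMF.g_pos u).ne']
  push_cast
  ring

/-- the field of a pair of rows is a convolution with `V` -/
lemma horiz_V {z : ℂ} (hz : |z.im| < l / 2) : ∫ u : ℝ, Pc (z - u) * (V u : ℂ) = vc z := by
  obtain ⟨K1, hK1⟩ := NUAct.ks_bd
  obtain ⟨K2, hK2⟩ := NUAct.kx_bd
  rw [vc_eq, ← horiz_s hz, ← horiz_x hz, ← integral_add (J_int NUAct.ks_meas hK1 hz)
    (J_int NUAct.kx_cont.aestronglyMeasurable hK2 hz)]
  refine integral_congr_ae ?_
  filter_upwards [NUMF.ae_ne_zero] with u hu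
  rw [← ks_add_kx hu, mul_add]

/-- pointwise bound of `V` with the weight `exp (2|u|)` -/
lemma V_wt (u : ℝ) : V u * Real.exp (2 * |u|) ≤ 24 + Real.exp 2 * V u := by
  have h0 := NUCR.V_nonneg u
  rcases le_or_gt |u| 1 with h | h
  · have h1 : Real.exp (2 * |u|) ≤ Real.exp 2 := Real.exp_le_exp.2 (by linarith)
    have h2 : V u * Real.exp (2 * |u|) ≤ V u * Real.exp 2 := mul_le_mul_of_nonneg_left h1 h0
    linarith
  · have h1 := NUWC.V_abs_le h.le
    rw [NUWC.V_abs] at h1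
    have h2 : V u ≤ 24 * Real.exp (-(2 * |u|)) := (le_abs_self _).trans h1
    have h3 : V u * Real.exp (2 * |u|) ≤ 24 * Real.exp (-(2 * |u|)) * Real.exp (2 * |u|) :=
      mul_le_mul_of_nonneg_right h2 (Real.exp_pos _).le
    rw [mul_assoc, ← Real.exp_add, neg_add_cancel, Real.exp_zero, mul_one] at h3
    have h4 : 0 ≤ Real.exp 2 * V u := mul_nonneg (Real.exp_pos _).le h0
    linarith

/-- **the field of a pair of rows decays** -/
theorem vc_exp {b : ℝ} (hb0 : 0 ≤ b) (hb : b < l / 2) : ∃ A : ℝ, 0 ≤ A ∧ ∀ z : ℂ, |z.im| ≤ b →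
    ‖vc z‖ ≤ A * Real.exp (-2 * |z.re|) := by
  obtain ⟨C, hC, h⟩ := Pc_deriv_exp hb0 hb 0
  have iE : Integrable fun u : ℝ => Real.exp (-(2 / 3) * |u|) :=
    NUAct.int_exp_abs' (κ := 2 / 3) (by norm_num)
  obtain ⟨J, hJ⟩ : ∃ J : ℝ, J = ∫ u : ℝ, Real.exp (-(2 / 3) * |u|) := ⟨_, rfl⟩
  have hJ0 : 0 ≤ J := by rw [hJ]; exact integral_nonneg fun _ => (Real.exp_pos _).le
  obtain ⟨N, hN⟩ : ∃ N : ℝ, N = ∫ u : ℝ, V u := ⟨_, rfl⟩
  have hN0 : 0 ≤ N := by rw [hN]; exact integral_nonneg NUCR.V_nonneg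
  refine ⟨C * (24 * J + Real.exp 2 * N), by positivity, fun z hz => ?_⟩
  rw [← horiz_V (lt_of_le_of_lt hz hb)]
  have hpt : ∀ u : ℝ, ‖Pc (z - u) * (V u : ℂ)‖ ≤
      C * Real.exp (-2 * |z.re|) * (24 * Real.exp (-(2 / 3) * |z.re - u|) + Real.exp 2 * V u) := by
    intro u
    have h1 := h (z - u) (by simpa using hz)
    rw [iteratedDeriv_zero] at h1
    have h2 : (z - u).re = z.re - u := by simp
    rw [h2] at h1
    have hV := NUCR.V_nonneg u
    rw [norm_mul, Complex.norm_real, Real.norm_eq_abs, abs_of_nonneg hV]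
    have h3 : Real.exp (-(8 / 3) * |z.re - u|) ≤
        Real.exp (-2 * |z.re|) * (Real.exp (2 * |u|) * Real.exp (-(2 / 3) * |z.re - u|)) := by
      rw [← Real.exp_add, ← Real.exp_add]
      refine Real.exp_le_exp.2 ?_
      have := abs_add_le (z.re - u) u
      rw [sub_add_cancel] at this
      linarith
    have h4 : Real.exp (-(2 / 3) * |z.re - u|) ≤ 1 :=
      Real.exp_le_one_iff.2 (by have := abs_nonneg (z.re - u); linarith)
    have h5 := V_wt u
    have h6 : 0 ≤ Real.exp 2 * V u := mul_nonneg (Real.exp_pos _).le hV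
    calc ‖Pc (z - u)‖ * V u ≤ C * (Real.exp (-2 * |z.re|) * (Real.exp (2 * |u|) *
          Real.exp (-(2 / 3) * |z.re - u|))) * V u := by
          gcongr
          exact h1.trans (by gcongr)
      _ = C * Real.exp (-2 * |z.re|) * (Real.exp (-(2 / 3) * |z.re - u|) *
          (V u * Real.exp (2 * |u|))) := by ring
      _ ≤ C * Real.exp (-2 * |z.re|) * (Real.exp (-(2 / 3) * |z.re - u|) *
          (24 + Real.exp 2 * V u)) := by gcongr
      _ ≤ _ := by
          refine mul_le_mul_of_nonneg_left ?_ (by positivity)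
          rw [mul_add]
          have : Real.exp (-(2 / 3) * |z.re - u|) * (Real.exp 2 * V u) ≤ 1 * (Real.exp 2 * V u) :=
            mul_le_mul_of_nonneg_right h4 h6
          linarith
  have i1 : Integrable fun u : ℝ => Real.exp (-(2 / 3) * |z.re - u|) := iE.comp_sub_left z.re
  have i2 : Integrable fun u : ℝ => C * Real.exp (-2 * |z.re|) *
      (24 * Real.exp (-(2 / 3) * |z.re - u|) + Real.exp 2 * V u) :=
    ((i1.const_mul 24).add (NUCR.V_int.const_mul _)).const_mul _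
  refine (norm_integral_le_of_norm_le i2 (Eventually.of_forall hpt)).trans (le_of_eq ?_)
  rw [integral_const_mul, integral_add (i1.const_mul 24) (NUCR.V_int.const_mul _),
    integral_const_mul, integral_const_mul,
    integral_sub_left_eq_self (fun u : ℝ => Real.exp (-(2 / 3) * |u|)) volume z.re, ← hJ, ← hN]
  ring

/-- **all derivatives of the field of a pair of rows decay** -/
theorem vc_iter_exp {b : ℝ} (hb0 : 0 ≤ b) (hb : b < l / 2) (n : ℕ) : ∃ A : ℝ, 0 ≤ A ∧
    ∀ z : ℂ, |z.im| ≤ b → ‖iteratedDeriv n vc z‖ ≤ A * Real.exp (-2 * |z.re|) := by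
  obtain ⟨ρ, hρ⟩ : ∃ ρ : ℝ, ρ = (l / 2 - b) / 2 := ⟨_, rfl⟩
  have hρ0 : 0 < ρ := by rw [hρ]; linarith
  obtain ⟨A, hA, h⟩ := vc_exp (b := b + ρ) (by linarith) (by rw [hρ]; linarith)
  refine ⟨n.factorial * (A * Real.exp (2 * ρ)) / ρ ^ n, by positivity, fun z hz => ?_⟩
  have hcl : DiffContOnCl ℂ vc (Metric.ball z ρ) := by
    refine DifferentiableOn.diffContOnCl fun w hw => ?_
    rw [closure_ball z hρ0.ne'] at hw
    refine (diff_vc ?_).differentiableWithinAt
    have h1 : |(w - z).im| ≤ ρ := (Complex.abs_im_le_norm _).trans (by simpa [dist_eq_norm] using hw)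
    have h2 := abs_add_le (w - z).im z.im
    rw [Complex.sub_im, sub_add_cancel] at h2
    rw [Complex.sub_im] at h1
    rw [hρ] at h1
    have := l_pos
    linarith
  have hsp : ∀ w ∈ Metric.sphere z ρ, ‖vc w‖ ≤ A * Real.exp (2 * ρ) * Real.exp (-2 * |z.re|) := by
    intro w hw
    have hw' : ‖w - z‖ = ρ := by simpa [dist_eq_norm] using hw
    have h1 : |(w - z).im| ≤ ρ := (Complex.abs_im_le_norm _).trans hw'.le
    have h3 : |(w - z).re| ≤ ρ := (Complex.abs_re_le_norm _).trans hw'.le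
    have h2 := abs_add_le (w - z).im z.im
    rw [Complex.sub_im, sub_add_cancel] at h2
    rw [Complex.sub_im] at h1
    have h4 := abs_sub_abs_le_abs_sub z.re w.re
    rw [abs_sub_comm] at h4
    rw [Complex.sub_re] at h3
    refine (h w (by linarith)).trans ?_
    rw [mul_assoc, ← Real.exp_add]
    refine mul_le_mul_of_nonneg_left (Real.exp_le_exp.2 ?_) hA
    linarith
  refine (Complex.norm_iteratedDeriv_le_of_forall_mem_sphere_norm_le n hρ0 hcl hsp).trans
    (le_of_eq ?_)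
  ring

/-- **derivatives of the row potential** -/
theorem vd_bound {b : ℝ} (hb0 : 0 ≤ b) (hb : b < l / 2) : ∃ A : ℝ, 0 ≤ A ∧ ∀ z : ℂ, |z.im| ≤ b →
    ‖vd z‖ ≤ A * Real.exp (-2 * |z.re|) ∧ ‖vdd z‖ ≤ A * Real.exp (-2 * |z.re|) := by
  obtain ⟨A1, hA1, h1⟩ := vc_iter_exp hb0 hb 1
  obtain ⟨A2, hA2, h2⟩ := vc_iter_exp hb0 hb 2
  refine ⟨A1 + A2, by positivity, fun z hz => ?_⟩
  have hE := Real.exp_pos (-2 * |z.re|)
  have e2 : iteratedDeriv 2 vc z = vdd z := by
    rw [iteratedDeriv_succ, iteratedDeriv_one]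
    rfl
  have g1 := h1 z hz
  have g2 := h2 z hz
  rw [iteratedDeriv_one] at g1
  rw [e2] at g2
  exact ⟨g1.trans (by nlinarith), g2.trans (by nlinarith)⟩

/-! ### on the line -/

lemma vd_real (t : ℝ) : vd t = ((vd t).re : ℂ) ∧ HasDerivAt v (vd t).re t := by
  have h1 : HasDerivAt (fun t : ℝ => vc t) (vd t) t :=
    (hasDerivAt_vc (z := (t : ℂ)) (by simpa using l_pos)).comp_ofReal
  have h2 : HasDerivAt (fun t : ℝ => (v t : ℂ)) (vd t) t := by
    refine h1.congr_of_eventuallyEq (Eventually.of_forall fun t => ?_)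
    exact (vc_ofReal t).symm
  have h3 : HasDerivAt (fun t : ℝ => ((v t : ℂ)).re) (vd t).re t :=
    Complex.reCLM.hasFDerivAt.comp_hasDerivAt t h2
  have h4 : HasDerivAt (fun t : ℝ => ((v t : ℂ)).im) (vd t).im t :=
    Complex.imCLM.hasFDerivAt.comp_hasDerivAt t h2
  simp only [Complex.ofReal_re, Complex.ofReal_im] at h3 h4
  have h5 : (vd t).im = 0 := h4.unique (hasDerivAt_const t (0 : ℝ))
  refine ⟨Complex.ext (by simp) (by simp [h5]), h3⟩

lemma vdr_cont : Continuous fun t : ℝ => (vd t).re := by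
  refine Complex.continuous_re.comp ?_
  rw [continuous_iff_continuousAt]
  intro t
  exact ((hasDerivAt_vd (z := (t : ℂ)) (by simpa using l_pos)).continuousAt).comp
    Complex.continuous_ofReal.continuousAt

lemma v_continuous : Continuous v :=
  continuous_iff_continuousAt.2 fun t => (vd_real t).2.continuousAt

/-- the field on the line decays -/
theorem v_exp : ∃ A : ℝ, 0 ≤ A ∧ ∀ t : ℝ, |v t| ≤ A * Real.exp (-2 * |t|) := by
  obtain ⟨A, hA, h⟩ := vc_exp (b := 0) le_rfl (by have := l_pos; linarith)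
  refine ⟨A, hA, fun t => ?_⟩
  have h1 := h t (by simp)
  rwa [vc_ofReal, Complex.norm_real, Real.norm_eq_abs, Complex.ofReal_re] at h1

end

end NUSea.CR
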