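import Pool.Agent.NUSea.SEval
import Pool.Agent.NUCRC.VcD
import Pool.Agent.NUCRC.G0

/-!
# The constant of the action, complex number of rows, general current, general sea

Copy of `NUCR/SEvalB` for a general sea, namespace `NUSea.CR`.
-/

set_option autoImplicit false
set_option linter.unusedSectionVars false

open MeasureTheory Set Filter Topology Complex

namespace NUSea.CR

open NUMF (l l_pos)
open NUKer NUAct NUSea.Ev

noncomputable section

variable [Sea]

/-- `∫ h v' = - ∫ h' v` -/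
lemma int_parts_v {s b : ℝ} {η η1 : ℝ → ℝ} (h1 : ∀ t, HasDerivAt η (η1 t) t)
    (hc : Continuous (hd s η η1)) (h0 : ∀ t, b < |t| → η t = 0) (hd0 : ∀ t, b < |t| → hd s η η1 t = 0) :
    ∫ t, (s * P t * η t) * (vd t).re = -∫ t, v t * hd s η η1 t := by
  have hηc : Continuous η := continuous_iff_continuousAt.2 fun t => (h1 t).continuousAt
  have hPc := P_cont
  have hcc : Continuous fun t => s * P t * η t := by fun_prop
  have hcs : ∀ {f : ℝ → ℝ}, Continuous f → (∀ t, b < |t| → f t = 0) → Integrable f := by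
    intro f hf hz
    refine hf.integrable_of_hasCompactSupport ?_
    refine HasCompactSupport.intro (K := Icc (-b) b) isCompact_Icc fun t ht => hz t ?_
    rwa [mem_Icc, ← abs_le, not_le] at ht
  have i1 : Integrable fun t => (s * P t * η t) * (vd t).re :=
    hcs (hcc.mul vdr_cont) fun t ht => by rw [h0 t ht]; ring
  have i2 : Integrable fun t => hd s η η1 t * v t :=
    hcs (hc.mul v_continuous) fun t ht => by rw [hd0 t ht, zero_mul]
  have i3 : Integrable fun t => (s * P t * η t) * v t :=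
    hcs (hcc.mul v_continuous) fun t ht => by rw [h0 t ht]; ring
  have h := integral_mul_deriv_eq_deriv_mul_of_integrable
    (u := fun t => s * P t * η t) (v := v) (u' := hd s η η1) (v' := fun t => (vd t).re)
    (fun t _ => hasDerivAt_hd s h1 t) (fun t _ => (vd_real t).2) i1 i2 i3
  rw [h]
  congr 1
  refine integral_congr_ae (Eventually.of_forall fun t => ?_)
  simp only
  ring

/-- **the row potential `2 i ηc vc` on the path** -/
theorem row_path {b : ℝ} (hb0 : 0 ≤ b) (hb : b < l / 2) : ∃ C : ℝ, 0 ≤ C ∧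
    ∀ (s ηc H ε : ℝ) (η η1 : ℝ → ℝ), NUO.Disp ε η η1 → ε ≤ b → ε ≤ 1 → (∀ t, |s * P t * η t| ≤ H) →
      Continuous (hd s η η1) → ∀ b' : ℝ, (∀ t, b' < |t| → η t = 0) → (∀ t, b' < |t| → hd s η η1 t = 0) →
      |-(∫ t, Bf s (iD η) (iD η1) t * (2 * (I * ηc * vc (zt (iD η) t)))).re -
        2 * ηc * ∫ t, v t * hd s η η1 t| ≤ C * (|ηc| * (H * ε)) := by
  obtain ⟨C1, hC1, hw⟩ := O.wind_gen hb0 hb
  obtain ⟨A, hA, hv⟩ := vd_bound hb0 hb
  refine ⟨2 * (2 * C1 * A + A + A), by positivity, fun s ηc H ε η η1 D hε hε1 hH hc b' h0 hd0 => ?_⟩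
  have hη := abs_nonneg ηc
  have n0 : ‖(2 * (I * (ηc : ℂ)))‖ = 2 * |ηc| := by
    rw [norm_mul, norm_mul, Complex.norm_I, one_mul, Complex.norm_ofNat, Complex.norm_real,
      Real.norm_eq_abs]
  have h1 := hw s (2 * |ηc| * A) (2 * |ηc| * A) H 0 ε η η1
    (fun z => 2 * (I * ηc) * vc z) (fun z => 2 * (I * ηc) * vd z)
    (fun z => 2 * (I * ηc) * vdd z)
    (fun z hz => (hasDerivAt_vc (lt_of_le_of_lt hz hb)).const_mul _)
    (fun z hz => (hasDerivAt_vd (lt_of_le_of_lt hz hb)).const_mul _)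
    (fun z hz => by
      rw [norm_mul, n0, sub_zero, mul_assoc (2 * |ηc|)]
      exact mul_le_mul_of_nonneg_left (hv z hz).1 (by positivity))
    (fun z hz => by
      rw [norm_mul, n0, sub_zero, mul_assoc (2 * |ηc|)]
      exact mul_le_mul_of_nonneg_left (hv z hz).2 (by positivity)) D hε hε1 hH
  have h2 := (Complex.abs_re_le_norm _).trans h1
  rw [Complex.sub_re, Complex.neg_re] at h2
  have e1 : ∀ t : ℝ, O.Bd s η η1 t * (2 * (I * (ηc : ℂ)) * vc (NUO.zt η t)) =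
      Bf s (iD η) (iD η1) t * (2 * (I * ηc * vc (zt (iD η) t))) := by
    intro t
    rw [zt_eq, Bf_Bd]
    ring
  simp_rw [e1] at h2
  have e2 : I * ∫ t : ℝ, ((s * P t * η t : ℝ) : ℂ) * (2 * (I * (ηc : ℂ)) * vd t) =
      ((-(2 * ηc) * ∫ t : ℝ, (s * P t * η t) * (vd t).re : ℝ) : ℂ) := by
    have e3 : ∀ t : ℝ, ((s * P t * η t : ℝ) : ℂ) * (2 * (I * (ηc : ℂ)) * vd t) =
        (2 * (I * ηc)) * (((s * P t * η t) * (vd t).re : ℝ) : ℂ) := by
      intro t
      rw [(vd_real t).1]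
      push_cast
      simp only [Complex.ofReal_re]
      ring
    simp_rw [e3]
    have e4 : ∫ t : ℝ, (((s * P t * η t) * (vd t).re : ℝ) : ℂ) =
        ((∫ t : ℝ, (s * P t * η t) * (vd t).re : ℝ) : ℂ) := integral_ofReal
    rw [integral_const_mul, e4]
    obtain ⟨X, hX⟩ : ∃ X : ℝ, X = ∫ t : ℝ, (s * P t * η t) * (vd t).re := ⟨_, rfl⟩
    rw [← hX]
    push_cast
    have := Complex.I_mul_I
    linear_combination (2 * (ηc : ℂ) * (X : ℂ)) * this
  rw [e2, Complex.ofReal_re, int_parts_v D.der hc h0 hd0] at h2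
  have e5 : -(2 * ηc) * -∫ t, v t * hd s η η1 t = 2 * ηc * ∫ t, v t * hd s η η1 t := by ring
  rw [e5] at h2
  refine h2.trans (le_of_eq ?_)
  ring

/-- splitting of the integral over the path -/
lemma path_split {s ε b ηc δ : ℝ} {η η1 : ℝ → ℝ} {Fe : Bool → ℂ → ℂ} {Ψ : ℂ → ℂ} {ι : Type}
    [Fintype ι] {j τ : ι → ℝ} (hδ : 0 < δ) (hδ1 : δ ≤ 2 / 7) (hj : ∀ c, NUO.Off δ (j c))
    (hok : (gs s η η1 Fe).Ok) (D : NUO.Disp ε η η1) (hε : ε ≤ δ * l / 2)
    (hBc : Continuous (Bf s (iD η) (iD η1))) (hB0 : ∀ t, b < |t| → Bf s (iD η) (iD η1) t = 0)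
    (hF : ∀ z : ℂ, |z.im| ≤ δ * l / 2 → Fe true z + Fe false z =
      ∑ c, (NUO.fq (j c) (z - τ c) + NUO.fg (j c) (z - τ c)) +
        (Ψ z + 2 * (I * ηc * vc z))) :
    (∫ t, Bf s (iD η) (iD η1) t * (Ψ (zt (iD η) t) + 2 * (I * ηc * vc (zt (iD η) t)))).re =
      (∫ t, Bf s (iD η) (iD η1) t * Ψ (zt (iD η) t)).re +
      (∫ t, Bf s (iD η) (iD η1) t * (2 * (I * ηc * vc (zt (iD η) t)))).re := by
  have hl := l_pos
  have hdl : 0 < δ * l := mul_pos hδ hl
  have i1 : Integrable fun t => Bf s (iD η) (iD η1) t *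
      (Fe true (zt (iD η) t) + Fe false (zt (iD η) t)) := by
    refine (((hok.j6 true).sub (hok.j5 true)).add ((hok.j6 false).sub (hok.j5 false))).congr
      (Eventually.of_forall fun t => ?_)
    simp only [Pi.add_apply, Pi.sub_apply]
    have b1 : ∀ a, (gs s η η1 Fe).ρh a t * (gs s η η1 Fe).Fh a t -
        (gs s η η1 Fe).ρ a t * (gs s η η1 Fe).Fh a t =
        Bf s (iD η) (iD η1) t * Fe a (zt (iD η) t) := by
      intro a
      rw [← sub_mul]
      rfl
    rw [b1, b1, mul_add]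
  have hεl : ε < l / 2 := by nlinarith
  have i2 : ∀ c ∈ Finset.univ, Integrable fun t => O.Bd s η η1 t *
      (NUO.fq (j c) (NUO.zt η t - τ c) + NUO.fg (j c) (NUO.zt η t - τ c)) := by
    intro c _
    refine Continuous.integrable_of_hasCompactSupport ((O.Bd_cont D hεl s).mul ?_)
      (HasCompactSupport.intro D.supp fun t ht => ?_)
    · rw [continuous_iff_continuousAt]
      intro t
      have h1 : |(NUO.zt η t - τ c).im| < δ * l := by
        have := D.im_le t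
        have e : (NUO.zt η t - τ c).im = (NUO.zt η t).im := by simp
        rw [e]
        linarith
      have h2 := (NUO.hasDerivAt_fsum (hj c) h1).continuousAt
      exact h2.comp (f := fun t : ℝ => NUO.zt η t - τ c) ((D.zt_cont.sub continuous_const).continuousAt)
    · rw [O.Bd_zero s (D.d0 ht).1 (D.d0 ht).2, zero_mul]
  have i3 := integrable_finsetSum _ i2
  have e1 : ∀ t, Bf s (iD η) (iD η1) t * (Fe true (zt (iD η) t) + Fe false (zt (iD η) t)) =
      (∑ c, O.Bd s η η1 t *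
        (NUO.fq (j c) (NUO.zt η t - τ c) + NUO.fg (j c) (NUO.zt η t - τ c))) +
      Bf s (iD η) (iD η1) t * (Ψ (zt (iD η) t) + 2 * (I * ηc * vc (zt (iD η) t))) := by
    intro t
    rw [zt_eq, hF _ ((D.im_le t).trans hε), ← Bf_Bd, mul_add, Finset.mul_sum]
  have i4 : Integrable fun t => Bf s (iD η) (iD η1) t *
      (Ψ (zt (iD η) t) + 2 * (I * ηc * vc (zt (iD η) t))) := by
    refine (i1.sub i3).congr (Eventually.of_forall fun t => ?_)
    simp only [Pi.sub_apply]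
    rw [e1]
    ring
  have i5 : Integrable fun t => Bf s (iD η) (iD η1) t * (2 * (I * ηc * vc (zt (iD η) t))) := by
    refine Continuous.integrable_of_hasCompactSupport (hBc.mul ?_)
      (HasCompactSupport.intro (K := Icc (-b) b) isCompact_Icc fun t ht => ?_)
    · have h1 : Continuous fun t => vc (zt (iD η) t) := by
        rw [continuous_iff_continuousAt]
        intro t
        have h2 : |(NUO.zt η t).im| < l / 2 := lt_of_le_of_lt (D.im_le t) hεl
        have h3 := (hasDerivAt_vc h2).continuousAt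
        exact h3.comp (f := fun t : ℝ => NUO.zt η t) (D.zt_cont.continuousAt)
      fun_prop
    · rw [mem_Icc, ← abs_le, not_le] at ht
      rw [hB0 t ht, zero_mul]
  have i6 : Integrable fun t => Bf s (iD η) (iD η1) t * Ψ (zt (iD η) t) := by
    refine (i4.sub i5).congr (Eventually.of_forall fun t => ?_)
    simp only [Pi.sub_apply]
    ring
  rw [← Complex.add_re, ← integral_add i6 i5]
  congr 1
  refine integral_congr_ae (Eventually.of_forall fun t => ?_)
  simp only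
  ring

/-- **The constant of the action, complex number of rows, general current.** -/
theorem mainB {δ : ℝ} (hδ : 0 < δ) (hδ1 : δ ≤ 2 / 7) : ∃ C : ℝ, 1 ≤ C ∧
    ∀ (s ε M b ηc : ℝ) (e η η1 : ℝ → ℝ) (Fe : Bool → ℂ → ℂ) (Ψ : ℂ → ℂ) (ι : Type) [Fintype ι]
      (j τ : ι → ℝ), 0 ≤ s → Cur s ε M b e η → (∀ t, HasDerivAt η (η1 t) t) → 0 ≤ b →
      C * (b + 1) ^ 7 * ε ≤ 1 →
      (∀ a, Ext (δ * l / 2) (Fe a)) → (∀ c, NUO.Off δ (j c)) →
      (∀ z : ℂ, |z.im| ≤ δ * l / 2 → Fe true z + Fe false z =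
        ∑ c, (NUO.fq (j c) (z - τ c) + NUO.fg (j c) (z - τ c)) +
          (Ψ z + 2 * (I * ηc * vc z))) →
      |(gs s η η1 Fe).S - (s * (∑ c, O.clo (j c) (τ c)) + (∫ t : ℝ, s * P t * (Ψ t).re) -
        (∑ c, ∫ t, (s * P t * η t) * NUO.kw (j c) (t - τ c)) +
        En ηc (hd s η η1) -
        (∫ t, Bf s (iD η) (iD η1) t * Ψ (zt (iD η) t)).re)| ≤
        C * ((Fintype.card ι + |ηc|) * (M * ε)) + C * (b + 1) ^ 9 * M ^ 2 * ε := by
  have hl := l_pos
  obtain ⟨C0, hC0, H0⟩ := exists_BB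
  obtain ⟨C1, hC1, H1⟩ := exists_dbl
  obtain ⟨C2, hC2, H2⟩ := O.wind_one hδ (by linarith)
  have hdl : 0 < δ * l / 2 := by positivity
  have hdl' : δ * l / 2 < l / 2 := by nlinarith
  obtain ⟨C3, hC3, H3⟩ := row_path hdl.le hdl'
  refine ⟨20 + C0 + C1 + C2 + C3 + 1 / (δ * l / 2), by
    have : 0 < 1 / (δ * l / 2) := by positivity
    linarith, ?_⟩
  intro s ε M b ηc e η η1 Fe Ψ ι _ j τ hs h h1 hb hsm hF hj hsum
  have hε0 := h.ε0
  have hM0 := h.M0 hs
  have hη := abs_nonneg ηc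
  have hR7 : 1 ≤ (b + 1) ^ 7 := one_le_pow₀ (by linarith)
  obtain ⟨X, hX⟩ : ∃ X : ℝ, X = (b + 1) ^ 7 * ε := ⟨_, rfl⟩
  have hX0 : 0 ≤ X := by rw [hX]; positivity
  have hεX : ε ≤ X := by rw [hX]; exact le_mul_of_one_le_left hε0 hR7
  have hi : 0 < 1 / (δ * l / 2) := by positivity
  have hsm' : (20 + C0 + C1 + C2 + C3 + 1 / (δ * l / 2)) * X ≤ 1 := by
    rw [hX]
    refine le_trans (le_of_eq ?_) hsm
    ring
  have q0 : 0 ≤ C0 * X := by positivity
  have q1 : 0 ≤ C1 * X := by positivity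
  have q2 : 0 ≤ C2 * X := by positivity
  have q3 : 0 ≤ 1 / (δ * l / 2) * X := by positivity
  have q4 : 0 ≤ C3 * X := by positivity
  have hε20 : ε ≤ 1 / 20 := by linarith
  have hεδ : ε ≤ δ * l / 2 := by
    have : 1 / (δ * l / 2) * X ≤ 1 := by linarith
    rw [one_div, inv_mul_le_iff₀ hdl, mul_one] at this
    linarith
  have s1 : C1 * (b + 1) ^ 7 * ε ≤ 1 := by
    have e1 : C1 * (b + 1) ^ 7 * ε = C1 * X := by rw [hX]; ring
    rw [e1]
    linarith
  have hok := gs_ok hδ1 h hs h1 hε20 hεδ hF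
  have D := odisp h h1
  have hB := H0 hs hε20 h h1
  have hd1 := H1 hs h h1 hb s1 hok
  have a1 := (part_line hδ hj hok hsum).2
  have a2 := part_path hδ hδ1 hj hok D hεδ hsum
  have hH := cur_le h hs
  have a3 := H3 s ηc M ε η η1 D hεδ (by linarith) hH hB.hc b (fun t ht => out0 h ht) hB.hsupp
  -- the row potential on the line
  have a4 : ∫ t : ℝ, s * P t * (Ψ t + 2 * (I * ηc * vc t)).re = ∫ t : ℝ, s * P t * (Ψ t).re := by
    refine integral_congr_ae (Eventually.of_forall fun t => ?_)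
    simp only
    congr 1
    rw [vc_ofReal, Complex.add_re]
    have : (2 * (I * (ηc : ℂ) * (v t : ℂ))).re = 0 := by
      have : 2 * (I * (ηc : ℂ) * (v t : ℂ)) = ((2 * (ηc * v t) : ℝ) : ℂ) * I := by push_cast; ring
      rw [this]
      simp
    rw [this, add_zero]
  rw [a4] at a1
  -- the row potential on the path
  have a5 := path_split hδ hδ1 hj hok D hεδ hB.cont hB.supp hsum
  rw [a5] at a2
  -- the windings
  have hone : ∀ c, |-(∫ t, O.Bd s η η1 t *
      (NUO.fq (j c) (NUO.zt η t - τ c) + NUO.fg (j c) (NUO.zt η t - τ c))).re +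
      ∫ t, (s * P t * η t) * NUO.kw (j c) (t - τ c)| ≤ C2 * (M * ε) := fun c =>
    H2 s M (τ c) ε (j c) η η1 (hj c) D hεδ hH
  have hsumc : |∑ c, (-(∫ t, O.Bd s η η1 t *
      (NUO.fq (j c) (NUO.zt η t - τ c) + NUO.fg (j c) (NUO.zt η t - τ c))).re +
      ∫ t, (s * P t * η t) * NUO.kw (j c) (t - τ c))| ≤ Fintype.card ι * (C2 * (M * ε)) := by
    refine (Finset.abs_sum_le_sum_abs _ _).trans
      ((Finset.sum_le_sum fun c _ => hone c).trans (le_of_eq ?_))
    rw [Finset.sum_const, Finset.card_univ, nsmul_eq_mul]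
  rw [Finset.sum_add_distrib, Finset.sum_neg_distrib] at hsumc
  have eS := S_eq hok
  rw [a1, a2] at eS
  rw [eS]
  have hMε : 0 ≤ M * ε := mul_nonneg hM0 hε0
  have hcard : (0 : ℝ) ≤ Fintype.card ι := Nat.cast_nonneg _
  have g1 : Fintype.card ι * (C2 * (M * ε)) + C3 * (|ηc| * (M * ε)) ≤
      (20 + C0 + C1 + C2 + C3 + 1 / (δ * l / 2)) * ((Fintype.card ι + |ηc|) * (M * ε)) := by
    have e1 : 0 ≤ Fintype.card ι * (M * ε) := by positivity
    have e2 : 0 ≤ |ηc| * (M * ε) := by positivity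
    have e3 : C2 ≤ 20 + C0 + C1 + C2 + C3 + 1 / (δ * l / 2) := by linarith
    have e4 : C3 ≤ 20 + C0 + C1 + C2 + C3 + 1 / (δ * l / 2) := by linarith
    calc Fintype.card ι * (C2 * (M * ε)) + C3 * (|ηc| * (M * ε)) =
        C2 * (Fintype.card ι * (M * ε)) + C3 * (|ηc| * (M * ε)) := by ring
      _ ≤ (20 + C0 + C1 + C2 + C3 + 1 / (δ * l / 2)) * (Fintype.card ι * (M * ε)) +
          (20 + C0 + C1 + C2 + C3 + 1 / (δ * l / 2)) * (|ηc| * (M * ε)) :=
        add_le_add (mul_le_mul_of_nonneg_right e3 e1) (mul_le_mul_of_nonneg_right e4 e2)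
      _ = _ := by ring
  have g2 : C1 * (b + 1) ^ 9 * M ^ 2 * ε ≤
      (20 + C0 + C1 + C2 + C3 + 1 / (δ * l / 2)) * (b + 1) ^ 9 * M ^ 2 * ε := by
    have h9 : 0 ≤ (b + 1) ^ 9 * M ^ 2 * ε := by positivity
    calc C1 * (b + 1) ^ 9 * M ^ 2 * ε = C1 * ((b + 1) ^ 9 * M ^ 2 * ε) := by ring
      _ ≤ (20 + C0 + C1 + C2 + C3 + 1 / (δ * l / 2)) * ((b + 1) ^ 9 * M ^ 2 * ε) :=
          mul_le_mul_of_nonneg_right (by linarith) h9
      _ = _ := by ring
  unfold En
  rw [abs_le] at hsumc hd1 a3 ⊢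
  constructor <;> linarith [hsumc.1, hsumc.2, hd1.1, hd1.2, a3.1, a3.2]

end

end NUSea.CR
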